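import Pool.Agent.TARF.FIVE
import Pool.Agent.TARO.MAINO
import Pool.Agent.TAR.MAIN

/-! ALL: the set of all Tarski numbers. -/

namespace TARF

open TAR

/-- the natural numbers which are Tarski numbers of finitely generated groups -/
theorem all_tarski (k : ℕ) :
    (∃ (G : Type) (_ : Group G), Group.FG G ∧ HasTarskiNumber G k) ↔ 4 ≤ k := by
  constructor
  · rintro ⟨G, hG, _, h⟩
    exact MAIN_four G h
  · intro h4
    rcases Nat.even_or_odd k with hk | hk
    · exact (even_tarski k hk).2 h4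
    · obtain ⟨j, hj⟩ := hk
      rcases Nat.lt_or_ge j 3 with h3 | h3
      · have e : k = 5 := by omega
        subst e
        obtain ⟨G, hG, ⟨s, hs⟩, hT⟩ := five
        exact ⟨G, hG, Group.fg_iff.mpr ⟨_, hs, Set.finite_range _⟩, hT⟩
      · obtain ⟨G, hG, ⟨s, hs⟩, _, hT⟩ := TARO.odd_family (j - 2) (by omega)
        refine ⟨G, hG, Group.fg_iff.mpr ⟨_, hs, Set.finite_range _⟩, ?_⟩
        have : 2 * (j - 2) + 5 = k := by omega
        rwa [this] at hT

/-- a finitely generated group without paradoxical decomposition -/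
theorem exists_no_paradox :
    ∃ (G : Type) (_ : Group G), Group.FG G ∧ ∀ m n : ℕ, ¬ HasParadox G m n := by
  refine ⟨PUnit, inferInstance, inferInstance, ?_⟩
  rintro m n ⟨A, B, a, b, -, -, -, -, hAB, -, hA, hB⟩
  have h1 : (1 : PUnit) ∈ ⋃ i, (fun g => a i * g) '' A i := hA ▸ Set.mem_univ _
  have h2 : (1 : PUnit) ∈ ⋃ i, (fun g => b i * g) '' B i := hB ▸ Set.mem_univ _
  simp only [Set.mem_iUnion, Set.mem_image] at h1 h2
  obtain ⟨i, x, hx, -⟩ := h1
  obtain ⟨j, y, hy, -⟩ := h2
  have e : x = y := Subsingleton.elim _ _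
  exact Set.disjoint_left.1 (hAB i j) hx (e ▸ hy)

end TARF
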