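import Pool.Agent.TARF.Defs

/-! BAS: coordinates for a subspace, and an average. -/

open Module

namespace TARF

/-- Induction on `finrank B`: if `B ≠ ⊥` choose `f ∈ B` and `i` with `f i ≠ 0` and apply the
induction hypothesis to `{g ∈ B | g i = 0}`. -/
theorem exists_coords {ι : Type} [Fintype ι] [DecidableEq ι] (B : Submodule K (ι → K)) :
    ∃ D : Finset ι, D.card = finrank K B ∧ ∀ f ∈ B, (∀ i ∈ D, f i = 0) → f = 0 := by
  classical
  let v : ι → Dual K B := fun i => (LinearMap.proj i).comp B.subtype
  obtain ⟨κ, a, ha, hs, hl⟩ := exists_linearIndependent' K v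
  have : Finite κ := Finite.of_injective a ha
  have : Fintype κ := Fintype.ofFinite κ
  have hW : (Submodule.span K (Set.range v)).dualCoannihilator = ⊥ := by
    rw [eq_bot_iff]
    intro f hf
    rw [Submodule.mem_dualCoannihilator] at hf
    rw [Submodule.mem_bot]
    ext i
    exact hf (v i) (Submodule.subset_span ⟨i, rfl⟩)
  have hr := Subspace.finrank_add_finrank_dualCoannihilator_eq (Submodule.span K (Set.range v))
  rw [hW, finrank_bot, add_zero, ← hs, finrank_span_eq_card hl] at hr
  refine ⟨Finset.univ.map ⟨a, ha⟩, ?_, ?_⟩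
  · rw [Finset.card_map, Finset.card_univ, hr]
  · intro f hf h0
    have h1 : (⟨f, hf⟩ : B) ∈ (Submodule.span K (Set.range (v ∘ a))).dualCoannihilator := by
      rw [Submodule.mem_dualCoannihilator]
      intro φ hφ
      induction hφ using Submodule.span_induction with
      | mem x hx =>
        obtain ⟨k, rfl⟩ := hx
        exact h0 (a k) (by simp)
      | zero => rfl
      | add x y _ _ hx hy => rw [LinearMap.add_apply, hx, hy, add_zero]
      | smul c x _ hx => rw [LinearMap.smul_apply, hx, smul_zero]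
    rw [hs, hW, Submodule.mem_bot] at h1
    exact congrArg Subtype.val h1

theorem finrank_inf_suppOn_le {ι : Type} [Fintype ι] [DecidableEq ι] {B : Submodule K (ι → K)}
    {D : Finset ι} (hD : ∀ f ∈ B, (∀ i ∈ D, f i = 0) → f = 0) (E : Finset ι) :
    finrank K (B ⊓ suppOn (E : Set ι) : Submodule K (ι → K)) ≤ (D ∩ E).card := by
  let L : (B ⊓ suppOn (E : Set ι) : Submodule K (ι → K)) →ₗ[K] ((D ∩ E : Finset ι) → K) :=
    (LinearMap.funLeft K K (fun i : (D ∩ E : Finset ι) => (i : ι))).comp (Submodule.subtype _)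
  have hL : Function.Injective L := by
    rw [← LinearMap.ker_eq_bot, eq_bot_iff]
    rintro ⟨f, hfB, hfE⟩ hf
    rw [LinearMap.mem_ker] at hf
    rw [Submodule.mem_bot]
    apply Subtype.ext
    refine hD f hfB (fun i hi => ?_)
    by_cases hE : i ∈ E
    · exact congrFun hf ⟨i, Finset.mem_inter.2 ⟨hi, hE⟩⟩
    · exact hfE i (by simpa using hE)
  have h := LinearMap.finrank_le_finrank_of_injective hL
  rwa [Module.finrank_fintype_fun_eq_card, Fintype.card_coe] at h

/-- `∑ q, |D ∩ (q F × J)| = |D| |F| ≤ |Q| |F| / 2` -/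
theorem exists_translate {Q J : Type} [Group Q] [Fintype Q] [DecidableEq Q] [Fintype J]
    [DecidableEq J] (B : Submodule K (Q × J → K)) (hB : 2 * finrank K B ≤ Fintype.card Q)
    (F : Finset Q) : ∃ q : Q, 2 * finrank K
      (B ⊓ suppOn {e : Q × J | e.1 ∈ F.image fun g => q * g} : Submodule K (Q × J → K)) ≤
        F.card := by
  classical
  obtain ⟨D, hDc, hD⟩ := exists_coords B
  let E : Q → Finset (Q × J) := fun q => Finset.univ.filter fun e => e.1 ∈ F.image fun g => q * g
  have hE : ∀ q, ((E q : Finset (Q × J)) : Set (Q × J)) =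
      {e : Q × J | e.1 ∈ F.image fun g => q * g} := by
    intro q
    ext e
    simp [E]
  by_contra hcon
  push Not at hcon
  have h1 : ∀ q : Q, F.card + 1 ≤ 2 * (D ∩ E q).card := by
    intro q
    have h2 := hcon q
    have h3 := finrank_inf_suppOn_le hD (E q)
    rw [hE] at h3
    omega
  have h2 : ∑ q : Q, (D ∩ E q).card = D.card * F.card := by
    have h3 : ∀ q : Q, (D ∩ E q).card = ∑ e ∈ D, if e.1 ∈ F.image (fun g => q * g) then 1 else 0 := by
      intro q
      rw [Finset.sum_boole, Nat.cast_id]
      congr 1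
      ext e
      simp [E]
    simp_rw [h3]
    rw [Finset.sum_comm]
    have h4 : ∀ e ∈ D, (∑ q : Q, if e.1 ∈ F.image (fun g => q * g) then 1 else 0) = F.card := by
      intro e _
      rw [Finset.sum_boole, Nat.cast_id]
      refine Finset.card_bij' (fun q _ => q⁻¹ * e.1) (fun g _ => e.1 * g⁻¹) ?_ ?_ ?_ ?_
      · intro q hq
        rw [Finset.mem_filter] at hq
        obtain ⟨g, hg, hqg⟩ := Finset.mem_image.1 hq.2
        rw [← hqg, inv_mul_cancel_left]
        exact hg
      · intro g hg
        rw [Finset.mem_filter]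
        refine ⟨Finset.mem_univ _, Finset.mem_image.2 ⟨g, hg, by group⟩⟩
      · intro q _
        group
      · intro g _
        group
    rw [Finset.sum_congr rfl h4, Finset.sum_const, smul_eq_mul]
  have h5 : ∑ q : Q, (F.card + 1) ≤ ∑ q : Q, 2 * (D ∩ E q).card :=
    Finset.sum_le_sum fun q _ => h1 q
  rw [← Finset.mul_sum, h2, Finset.sum_const, Finset.card_univ, smul_eq_mul, hDc] at h5
  have h6 : 2 * finrank K B * F.card ≤ Fintype.card Q * F.card := Nat.mul_le_mul_right _ hB
  have h7 : 0 < Fintype.card Q := Fintype.card_pos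
  nlinarith

end TARF
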