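import Pool.Agent.TARF.Defs

/-! COC: cocycles. -/

open Module

namespace TARF

variable {Q M : Type} [Group Q] [AddCommGroup M] [Module K M] {ρ : Representation K Q M}
  {φ : Φ →* Q} {P : Φ → M}

theorem Cocycle.one (h : Cocycle ρ φ P) : P 1 = 0 := by
  have h1 := h.mul 1 1
  rw [mul_one, map_one, map_one, Module.End.one_apply] at h1
  exact left_eq_add.1 h1

theorem Cocycle.pow (h : Cocycle ρ φ P) (v : Φ) (n : ℕ) :
    P (v ^ n) = ∑ k ∈ Finset.range n, ρ (φ v ^ k) (P v) := by
  induction n with
  | zero => rw [pow_zero, h.one, Finset.range_zero, Finset.sum_empty]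
  | succ n ih => rw [pow_succ, h.mul, ih, Finset.sum_range_succ, map_pow]

/-- if `φ v = 1` then `P (v ^ n) = n • P v` -/
theorem Cocycle.pow_of_eq_one (h : Cocycle ρ φ P) {v : Φ} (hv : φ v = 1) (n : ℕ) :
    P (v ^ n) = (n : K) • P v := by
  rw [h.pow]
  simp only [hv, one_pow, map_one, Module.End.one_apply]
  rw [Finset.sum_const, Finset.card_range, Nat.cast_smul_eq_nsmul]

/-- Existence.  Let `Φ` act on the set `M × Q` by the permutations
`(z, q) ↦ (m s + ρ (φ s) z, φ s * q)` of the generators; `P v` is the first component of the image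
of `(0, 1)`, the second one is `φ v`.  The image of `(z, q)` under `v` is
`(P v + ρ (φ v) z, φ v * q)` (free group induction). -/
theorem exists_cocycle (ρ : Representation K Q M) (φ : Φ →* Q) (m : Fin 3 → M) :
    ∃ P : Φ → M, Cocycle ρ φ P ∧ ∀ s, P (FreeGroup.of s) = m s := by
  have hinv : ∀ (q : Q) (z : M), ρ q⁻¹ (ρ q z) = z := by
    intro q z
    rw [← Module.End.mul_apply, ← map_mul, inv_mul_cancel, map_one, Module.End.one_apply]
  have hinv' : ∀ (q : Q) (z : M), ρ q (ρ q⁻¹ z) = z := by
    intro q z
    rw [← Module.End.mul_apply, ← map_mul, mul_inv_cancel, map_one, Module.End.one_apply]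
  let e : Fin 3 → Equiv.Perm M := fun s =>
    { toFun := fun z => m s + ρ (φ (FreeGroup.of s)) z
      invFun := fun z => ρ (φ (FreeGroup.of s))⁻¹ (z - m s)
      left_inv := by
        intro z
        simp only [add_sub_cancel_left]
        exact hinv _ _
      right_inv := by
        intro z
        show m s + ρ (φ (FreeGroup.of s)) (ρ (φ (FreeGroup.of s))⁻¹ (z - m s)) = z
        rw [hinv', add_sub_cancel] }
  let A : Φ →* Equiv.Perm M := FreeGroup.lift e
  have key : ∀ (v : Φ) (z : M), A v z = A v 0 + ρ (φ v) z := by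
    intro v
    induction v using FreeGroup.induction_on with
    | C1 =>
      intro z
      rw [map_one, map_one, map_one, Equiv.Perm.one_apply, Equiv.Perm.one_apply,
        Module.End.one_apply, zero_add]
    | of s =>
      intro z
      simp only [A, FreeGroup.lift_apply_of]
      show m s + ρ (φ (FreeGroup.of s)) z =
        m s + ρ (φ (FreeGroup.of s)) 0 + ρ (φ (FreeGroup.of s)) z
      rw [map_zero, add_zero]
    | inv_of s ih =>
      intro z
      rw [map_inv, map_inv, Equiv.Perm.inv_eq_iff_eq, ih, map_add, hinv']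
      have h1 := ih ((A (FreeGroup.of s))⁻¹ 0)
      rw [← Equiv.Perm.mul_apply, mul_inv_cancel, Equiv.Perm.one_apply] at h1
      rw [← add_assoc, ← h1, zero_add]
    | mul x y hx hy =>
      intro z
      rw [map_mul, map_mul, map_mul, Equiv.Perm.mul_apply, Equiv.Perm.mul_apply,
        Module.End.mul_apply, hx (A y z), hy z, hx (A y 0), map_add, add_assoc]
  refine ⟨fun v => A v 0, ⟨fun v w => ?_⟩, fun s => ?_⟩
  · show A (v * w) 0 = A v 0 + ρ (φ v) (A w 0)
    rw [map_mul, Equiv.Perm.mul_apply, key]
  · simp only [A, FreeGroup.lift_apply_of]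
    show m s + ρ (φ (FreeGroup.of s)) 0 = m s
    rw [map_zero, add_zero]

end TARF
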