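import Pool.Agent.TARF.XINF
import Pool.Agent.TARF.BAS

/-! CYC: the cycles supported on a finite set of edges. -/

open Module

namespace TARF

/-- the edges: `(g, 0)` for `g ∈ F₁`, `(g, 1)` and `(g, 2)` for `g ∈ F₂` -/
def edges (F₁ F₂ : Finset (Φ ⧸ Kinf)) : Set ((Φ ⧸ Kinf) × Fin 3) :=
  {e | (e.2 = 0 ∧ e.1 ∈ F₁) ∨ (e.2 ≠ 0 ∧ e.1 ∈ F₂)}

theorem CYC_push_apply {G Q : Type} [DecidableEq Q] (p : G → Q) (z : G × Fin 3 →₀ K)
    (a : Q) (s : Fin 3) :
    push p z (a, s) = ∑ e ∈ z.support, if p e.1 = a ∧ e.2 = s then z e else 0 := by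
  unfold push
  rw [Finsupp.linearCombination_apply, Finsupp.sum, Finset.sum_apply]
  apply Finset.sum_congr rfl
  intro e _
  rw [Pi.smul_apply, ed, Pi.single_apply, smul_eq_mul]
  by_cases h : p e.1 = a ∧ e.2 = s
  · have h' : (a, s) = (p e.1, e.2) := by rw [h.1, h.2]
    rw [if_pos h, if_pos h', mul_one]
  · have h' : ¬ (a, s) = (p e.1, e.2) := by
      intro h2
      rw [Prod.mk.injEq] at h2
      exact h ⟨h2.1.symm, h2.2.symm⟩
    rw [if_neg h, if_neg h', mul_zero]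

/-- restriction to the edges with `s ≠ 0` -/
noncomputable def CYC_R (Q : Type) : Ch Q →ₗ[K] (Q × Fin 2 → K) :=
  LinearMap.funLeft K K (fun e : Q × Fin 2 => (e.1, e.2.succ))

theorem CYC_R_apply {Q : Type} (f : Ch Q) (a : Q) (j : Fin 2) : CYC_R Q f (a, j) = f (a, j.succ) :=
  rfl

theorem CYC_tr_apply {Q : Type} [Group Q] (q : Q) (f : Ch Q) (a : Q) (s : Fin 3) :
    tr Q q f (a, s) = f (q⁻¹ * a, s) := rfl

/-- a chain with zero coordinates at the edges `s ≠ 0` -/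
theorem CYC_zero {Q : Type} [DecidableEq Q] (F₁ F₂ : Finset (Φ ⧸ Kinf)) (p : (Φ ⧸ Kinf) → Q)
    (hinj : Set.InjOn p (F₂ : Set (Φ ⧸ Kinf))) {z : (Φ ⧸ Kinf) × Fin 3 →₀ K}
    (hz : z ∈ Finsupp.supported K K (edges F₁ F₂))
    (h : ∀ (a : Q) (j : Fin 2), push p z (a, j.succ) = 0) :
    ∀ e ∈ z.support, e.2 = 0 := by
  rw [Finsupp.mem_supported] at hz
  have hF : ∀ e ∈ z.support, e.2 ≠ 0 → e.1 ∈ F₂ := by
    intro e he h0
    rcases hz (Finset.mem_coe.2 he) with h1 | h1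
    · exact absurd h1.1 h0
    · exact h1.2
  intro e he
  by_contra h0
  obtain ⟨j, hj⟩ := Fin.exists_succ_eq.2 h0
  have h1 := h (p e.1) j
  rw [CYC_push_apply, Finset.sum_eq_single_of_mem e he] at h1
  · rw [if_pos ⟨rfl, hj.symm⟩] at h1
    exact (Finsupp.mem_support_iff.1 he) h1
  · intro e' he' hne
    rw [if_neg]
    rintro ⟨h2, h3⟩
    have h4 : e'.2 ≠ 0 := by
      rw [h3]
      exact Fin.succ_ne_zero j
    have h5 := hinj (Finset.mem_coe.2 (hF e' he' h4)) (Finset.mem_coe.2 (hF e he h0)) h2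
    exact hne (Prod.ext h5 (by rw [h3, hj]))

/-- Take `N` with `exists_sep` for `F₁ ∪ F₂`, the cocycle `P` of `exists_cocycle` for `tr` with
values `ed 1 s`, and let `B` be the image of `Bd (tr) P` under restriction to the edges with
`s ≠ 0` (index type `Fin 2`, `s = j.succ`); `2 * finrank B ≤ |Φ ⧸ N|` (`two_mul_finrank_Bd`).
`exists_translate` for the image `F` of `F₂` gives `q`.  For a cycle `z` supported on the edges the
translate `tr q (push z)` is in `Bd` (`push_mem_Bd`, `Bd_inv`); its restriction to the edges with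
`s ≠ 0` is in `B` and supported on `q F`.  This gives a linear map on the space of cycles, which
is injective: if the restriction vanishes then `z` has no edges with `s ≠ 0` (the map
`proj` is injective on `F₂`) and `eq_zero_of_bdry` applies. -/
theorem two_mul_finrank_cycles (F₁ F₂ : Finset (Φ ⧸ Kinf)) :
    2 * finrank K (Finsupp.supported K K (edges F₁ F₂) ⊓ LinearMap.ker (bdry gen) :
      Submodule K ((Φ ⧸ Kinf) × Fin 3 →₀ K)) ≤ F₂.card := by
  classical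
  obtain ⟨N, hNn, hN, hinj⟩ := exists_sep (F₁ ∪ F₂)
  have hfin : Finite (Φ ⧸ N) := hN.fin
  let hft : Fintype (Φ ⧸ N) := Fintype.ofFinite _
  obtain ⟨P, hP, hPs⟩ := exists_cocycle (tr (Φ ⧸ N)) (QuotientGroup.mk' N) (fun s => ed 1 s)
  have hBd := two_mul_finrank_Bd hN hP
  have hB : 2 * finrank K ((Bd (tr (Φ ⧸ N)) P).map (CYC_R (Φ ⧸ N))) ≤ Fintype.card (Φ ⧸ N) := by
    have h1 := Submodule.finrank_map_le (CYC_R (Φ ⧸ N)) (Bd (tr (Φ ⧸ N)) P)
    rw [Nat.card_eq_fintype_card] at hBd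
    omega
  obtain ⟨q, hq⟩ := exists_translate ((Bd (tr (Φ ⧸ N)) P).map (CYC_R (Φ ⧸ N))) hB
    (F₂.image (proj hN))
  have hmem : ∀ z ∈ (Finsupp.supported K K (edges F₁ F₂) ⊓ LinearMap.ker (bdry gen) :
      Submodule K ((Φ ⧸ Kinf) × Fin 3 →₀ K)),
      (CYC_R (Φ ⧸ N) ∘ₗ tr (Φ ⧸ N) q ∘ₗ push (proj hN)) z ∈
      ((Bd (tr (Φ ⧸ N)) P).map (CYC_R (Φ ⧸ N)) ⊓
        suppOn {e : (Φ ⧸ N) × Fin 2 | e.1 ∈ (F₂.image (proj hN)).image fun g => q * g} :
        Submodule K ((Φ ⧸ N) × Fin 2 → K)) := by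
    intro z hz
    obtain ⟨hz1, hz2⟩ := hz
    have hz2' : bdry gen z = 0 := hz2
    refine ⟨?_, ?_⟩
    · exact Submodule.mem_map_of_mem (Bd_inv (tr (Φ ⧸ N)) P q (push_mem_Bd hN hP hPs hz2'))
    · rintro ⟨a, j⟩ hne
      show push (proj hN) z (q⁻¹ * a, j.succ) = 0
      rw [CYC_push_apply]
      apply Finset.sum_eq_zero
      intro e he
      rw [if_neg]
      rintro ⟨h1, h2⟩
      apply hne
      have h3 : e.1 ∈ F₂ := by
        have h4 : z ∈ Finsupp.supported K K (edges F₁ F₂) := hz1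
        rw [Finsupp.mem_supported] at h4
        rcases h4 (Finset.mem_coe.2 he) with h5 | h5
        · rw [h2] at h5
          exact absurd h5.1 (Fin.succ_ne_zero j)
        · exact h5.2
      show a ∈ (F₂.image (proj hN)).image fun g => q * g
      rw [Finset.mem_image]
      exact ⟨proj hN e.1, Finset.mem_image_of_mem _ h3, by rw [h1, mul_inv_cancel_left]⟩
  have hle : finrank K (Finsupp.supported K K (edges F₁ F₂) ⊓ LinearMap.ker (bdry gen) :
      Submodule K ((Φ ⧸ Kinf) × Fin 3 →₀ K)) ≤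
      finrank K ((Bd (tr (Φ ⧸ N)) P).map (CYC_R (Φ ⧸ N)) ⊓
        suppOn {e : (Φ ⧸ N) × Fin 2 | e.1 ∈ (F₂.image (proj hN)).image fun g => q * g} :
        Submodule K ((Φ ⧸ N) × Fin 2 → K)) := by
    apply LinearMap.finrank_le_finrank_of_injective
      (f := LinearMap.restrict (CYC_R (Φ ⧸ N) ∘ₗ tr (Φ ⧸ N) q ∘ₗ push (proj hN)) hmem)
    refine (injective_iff_map_eq_zero _).2 ?_
    rintro ⟨z, hz⟩ h0
    have h1 : (CYC_R (Φ ⧸ N) ∘ₗ tr (Φ ⧸ N) q ∘ₗ push (proj hN)) z = 0 := congrArg Subtype.val h0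
    have hz2' : bdry gen z = 0 := hz.2
    have h2 : ∀ (a : Φ ⧸ N) (j : Fin 2), push (proj hN) z (a, j.succ) = 0 := by
      intro a j
      have h3 := congrFun h1 (q * a, j)
      have h4 : push (proj hN) z (q⁻¹ * (q * a), j.succ) = 0 := h3
      rwa [inv_mul_cancel_left] at h4
    have hinj2 : Set.InjOn (proj hN) (F₂ : Set (Φ ⧸ Kinf)) :=
      hinj.mono (Finset.coe_subset.2 Finset.subset_union_right)
    have h5 := CYC_zero F₁ F₂ (proj hN) hinj2 hz.1 h2
    apply Subtype.ext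
    exact eq_zero_of_bdry hz2' h5
  calc 2 * finrank K (Finsupp.supported K K (edges F₁ F₂) ⊓ LinearMap.ker (bdry gen) :
      Submodule K ((Φ ⧸ Kinf) × Fin 3 →₀ K)) ≤ _ := Nat.mul_le_mul_left 2 hle
    _ ≤ (F₂.image (proj hN)).card := hq
    _ ≤ F₂.card := Finset.card_image_le

end TARF
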