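import Pool.Agent.TARO.Defs

/-!
The Tarski number 5 (MP_40d138_al), project TARF: definitions.

`Φ` is the free group on three generators `x = of 0`, `y₁ = of 1`, `y₂ = of 2`.
-/

open Module

namespace TARF

/-- the field with two elements -/
abbrev K : Type := ZMod 2

/-- the free group on three generators -/
abbrev Φ : Type := FreeGroup (Fin 3)

/-- the homomorphism to the integers: `x ↦ 1`, `y₁, y₂ ↦ 0` -/
noncomputable def pr : Φ →* Multiplicative ℤ :=
  FreeGroup.lift fun s => if s = 0 then Multiplicative.ofAdd 1 else 1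

/-- an enumeration of the kernel of `pr` -/
noncomputable def en : ℕ → Φ :=
  fun i => ((exists_surjective_nat pr.ker).choose i : Φ)

/-- the relators -/
noncomputable def rel (i : ℕ) : Φ := en i ^ 2 ^ (i + 2)

/-- the normal subgroups of 2-power index which contain all relators -/
structure Good (N : Subgroup Φ) : Prop where
  normal : N.Normal
  fin : Finite (Φ ⧸ N)
  pow : ∀ v : Φ, ∃ n : ℕ, v ^ 2 ^ n ∈ N
  rel : ∀ i, rel i ∈ N

/-- the intersection of all good subgroups -/
def Kinf : Subgroup Φ := ⨅ N : {N : Subgroup Φ // Good N}, N.1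

/-- a cocycle -/
structure Cocycle {Q M : Type} [Group Q] [AddCommGroup M] [Module K M]
    (ρ : Representation K Q M) (φ : Φ →* Q) (P : Φ → M) : Prop where
  mul : ∀ v w, P (v * w) = P v + ρ (φ v) (P w)

/-- the space of chains of the Cayley graph of `Q` -/
abbrev Ch (Q : Type) : Type := Q × Fin 3 → K

/-- left translation of chains -/
noncomputable def tr (Q : Type) [Group Q] : Representation K Q (Ch Q) where
  toFun q := LinearMap.funLeft K K (fun e : Q × Fin 3 => (q⁻¹ * e.1, e.2))
  map_one' := by
    ext f e
    simp [LinearMap.funLeft]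
  map_mul' p q := by
    ext f e
    simp [LinearMap.funLeft, mul_assoc]

/-- the edge `(g, s)` from `g` to `g * s` -/
def ed {Q : Type} [DecidableEq Q] (g : Q) (s : Fin 3) : Ch Q := Pi.single (g, s) 1

/-- the span of the translates of the values of the cocycle at the relators -/
def Bd {Q M : Type} [Group Q] [AddCommGroup M] [Module K M] (ρ : Representation K Q M)
    (P : Φ → M) : Submodule K M :=
  Submodule.span K {z | ∃ (q : Q) (i : ℕ), z = ρ q (P (rel i))}

/-- boundary of the chains of the Cayley graph of `G` for the generators `s` -/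
noncomputable def bdry {G : Type} [Group G] (s : Fin 3 → G) :
    (G × Fin 3 →₀ K) →ₗ[K] (G →₀ K) :=
  Finsupp.linearCombination K fun e : G × Fin 3 =>
    (Finsupp.single (e.1 * s e.2) (1 : K) - Finsupp.single e.1 (1 : K) : G →₀ K)

/-- image of a chain under a map `p` to a finite group -/
noncomputable def push {G Q : Type} [DecidableEq Q] (p : G → Q) :
    (G × Fin 3 →₀ K) →ₗ[K] Ch Q :=
  Finsupp.linearCombination K fun e : G × Fin 3 => ed (p e.1) e.2

/-- the functions vanishing outside `E` -/
def suppOn {ι : Type} (E : Set ι) : Submodule K (ι → K) where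
  carrier := {f | ∀ i, i ∉ E → f i = 0}
  add_mem' := by
    intro f g hf hg i hi
    rw [Pi.add_apply, hf i hi, hg i hi, add_zero]
  zero_mem' := by
    intro i _
    rfl
  smul_mem' := by
    intro c f hf i hi
    rw [Pi.smul_apply, hf i hi, smul_zero]

/-- the Hall inequality with multiplication on the right -/
def HallR {G : Type} [Group G] [DecidableEq G] (x y₁ y₂ : G) : Prop :=
  ∀ F₁ F₂ : Finset G, F₁.card + F₂.card ≤
    (F₁ ∪ F₁.image (fun g => g * x) ∪ F₂ ∪ F₂.image (fun g => g * y₁) ∪
      F₂.image (fun g => g * y₂)).card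

end TARF
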