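import Pool.Agent.TARF.XINF

/-! NOF2: no free subgroups, no decomposition with 2 + 2 pieces. -/

namespace TARF

/-- `c = ⁅a (of 0), a (of 1)⁆` has `prb c = 1`, so `c ^ n = 1` for some `n > 0`; but
`⁅of 0, of 1⁆ ^ n ≠ 1` in the free group (Mathlib: `IsMulTorsionFree (FreeGroup α)` in
`Mathlib.GroupTheory.FreeGroup.CyclicallyReduced`) -/
theorem no_free (a : FreeGroup (Fin 2) →* (Φ ⧸ Kinf)) : ¬ Function.Injective a := by
  intro hinj
  set x : FreeGroup (Fin 2) := FreeGroup.of 0 with hx
  set y : FreeGroup (Fin 2) := FreeGroup.of 1 with hy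
  have hc : prb (a (x * y * x⁻¹ * y⁻¹)) = 1 := by
    simp only [map_mul, map_inv]
    rw [mul_comm (prb (a x)) (prb (a y)), mul_inv_cancel_right, mul_inv_cancel]
  obtain ⟨n, hn, h⟩ := exists_pow_eq_one hc
  have h1 : (x * y * x⁻¹ * y⁻¹) ^ n = 1 := by
    apply hinj
    rw [map_pow, h, map_one]
  have h2 : x * y * x⁻¹ * y⁻¹ = 1 := by
    have h3 : (x * y * x⁻¹ * y⁻¹) ^ n = 1 ^ n := by
      rw [h1, one_pow]
    exact pow_left_injective hn.ne' h3
  have h4 : x * y = y * x := by
    rw [mul_inv_eq_one, mul_inv_eq_iff_eq_mul] at h2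
    exact h2
  have h5 := congrArg FreeGroup.toWord h4
  rw [hx, hy] at h5
  revert h5
  decide

/-- Ping-pong (`FreeGroup.injective_lift_of_ping_pong`): for the pieces `A 0, A 1, B 0, B 1` let
`g 0 = (a 0)⁻¹ * a 1` and `g 1 = (b 0)⁻¹ * b 1` (in the action of `G` on itself by left
multiplication); `A 0 ∪ g 0 (A 1) = G`, so the complement of `A 1` is mapped by `g 0` to
`A 0` and the complement of `A 0` is mapped by `(g 0)⁻¹` to `A 1`. -/
theorem no_paradox22 {G : Type} [Group G]
    (h : ∀ a : FreeGroup (Fin 2) →* G, ¬ Function.Injective a) : ¬ TAR.HasParadox G 2 2 := by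
  rintro ⟨A, B, a, b, hA, hB, hAA, hBB, hAB, -, hUA, hUB⟩
  have key : ∀ (C : Fin 2 → Set G) (c : Fin 2 → G),
      (⋃ i, (fun g => c i * g) '' C i) = Set.univ → ∀ x : G,
        x ∈ C 0 ∨ (((c 0)⁻¹ * c 1)⁻¹ * x) ∈ C 1 := by
    intro C c hC x
    have hx : c 0 * x ∈ ⋃ i, (fun g => c i * g) '' C i := by
      rw [hC]
      trivial
    rw [Set.mem_iUnion] at hx
    obtain ⟨i, y, hy, hyx⟩ := hx
    fin_cases i
    · left
      have hyx' : c 0 * y = c 0 * x := hyx
      rw [← mul_left_cancel hyx']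
      exact hy
    · right
      have hyx' : c 1 * y = c 0 * x := hyx
      have e : ((c 0)⁻¹ * c 1)⁻¹ * x = y := by
        rw [mul_inv_rev, inv_inv, mul_assoc, ← hyx', inv_mul_cancel_left]
      rw [e]
      exact hy
  have d01 : Disjoint (A 0) (A 1) := hAA 0 1 (by decide)
  have e01 : Disjoint (B 0) (B 1) := hBB 0 1 (by decide)
  refine h (FreeGroup.lift (fun i : Fin 2 => if i = 0 then (a 0)⁻¹ * a 1 else (b 0)⁻¹ * b 1))
    (FreeGroup.injective_lift_of_ping_pong
      (a := fun i : Fin 2 => if i = 0 then (a 0)⁻¹ * a 1 else (b 0)⁻¹ * b 1)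
      (α := G)
      (X := fun i : Fin 2 => if i = 0 then A 0 else B 0)
      (Y := fun i : Fin 2 => if i = 0 then A 1 else B 1) ?_ ?_ ?_ ?_ ?_ ?_)
  · intro i
    fin_cases i
    · exact hA 0
    · exact hB 0
  · intro i j hij
    fin_cases i <;> fin_cases j
    · exact absurd rfl hij
    · exact hAB 0 0
    · exact (hAB 0 0).symm
    · exact absurd rfl hij
  · intro i j hij
    fin_cases i <;> fin_cases j
    · exact absurd rfl hij
    · exact hAB 1 1
    · exact (hAB 1 1).symm
    · exact absurd rfl hij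
  · intro i j
    fin_cases i <;> fin_cases j
    · exact d01
    · exact hAB 0 1
    · exact (hAB 1 0).symm
    · exact e01
  · intro i
    fin_cases i
    · rintro _ ⟨y, hy, rfl⟩
      rcases key A a hUA (((a 0)⁻¹ * a 1) * y) with h1 | h1
      · exact h1
      · rw [inv_mul_cancel_left] at h1
        exact absurd h1 hy
    · rintro _ ⟨y, hy, rfl⟩
      rcases key B b hUB (((b 0)⁻¹ * b 1) * y) with h1 | h1
      · exact h1
      · rw [inv_mul_cancel_left] at h1
        exact absurd h1 hy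
  · intro i
    fin_cases i
    · rintro _ ⟨y, hy, rfl⟩
      rcases key A a hUA y with h1 | h1
      · exact absurd h1 hy
      · exact h1
    · rintro _ ⟨y, hy, rfl⟩
      rcases key B b hUB y with h1 | h1
      · exact absurd h1 hy
      · exact h1

end TARF
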