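import Pool.Agent.TARF.HALL5
import Pool.Agent.TARF.NOF2
import Pool.Agent.TARO.PARO
import Pool.Agent.TAR.LB

/-! FIVE: the Tarski number 5. -/

namespace TARF

open TAR

theorem five : ∃ (G : Type) (_ : Group G), (∃ s : Fin 3 → G,
    Subgroup.closure (Set.range s) = ⊤) ∧ HasTarskiNumber G 5 := by
  classical
  have key : ∀ m n : ℕ, HasParadox (Φ ⧸ Kinf) m n → 5 ≤ m + n := by
    intro m n hp
    obtain ⟨h1, h2⟩ := lb (rfin_zero _) hp
    by_contra hcon
    have e1 : m = 2 := by omega
    have e2 : n = 2 := by omega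
    subst e1
    subst e2
    exact no_paradox22 no_free hp
  refine ⟨Φ ⧸ Kinf, inferInstance, ⟨gen, ?_⟩, ?_, fun m n _ _ hp => key m n hp⟩
  · have h1 : Set.range gen = (QuotientGroup.mk' Kinf) '' Set.range (FreeGroup.of (α := Fin 3)) := by
      rw [← Set.range_comp]
      rfl
    rw [h1, ← MonoidHom.map_closure, FreeGroup.closure_range_of, ← MonoidHom.range_eq_map]
    exact MonoidHom.range_eq_top.2 (QuotientGroup.mk'_surjective Kinf)
  · obtain ⟨m, n, hm, hn, hm', hn', hp⟩ := TARO.par_gen _ _ ghset_five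
    have := key m n hp
    exact ⟨m, n, hm, hn, by omega, hp⟩

end TARF
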