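import Pool.Agent.TARF.CYC

/-! HALL5: the Hall inequality. -/

open Module

namespace TARF

/-- The space of chains supported on `edges F₁ F₂` has dimension `|F₁| + 2 |F₂|`, its image under
`bdry gen` is supported on the union of the five sets, and the kernel has dimension at most
`|F₂| / 2`. -/
theorem hallR [DecidableEq (Φ ⧸ Kinf)] : HallR (gen 0) (gen 1) (gen 2) := by
  intro F₁ F₂
  set U : Finset (Φ ⧸ Kinf) := F₁ ∪ F₁.image (fun g => g * gen 0) ∪ F₂ ∪
    F₂.image (fun g => g * gen 1) ∪ F₂.image (fun g => g * gen 2) with hU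
  set E : Finset ((Φ ⧸ Kinf) × Fin 3) := F₁ ×ˢ ({0} : Finset (Fin 3)) ∪
    F₂ ×ˢ ({1, 2} : Finset (Fin 3)) with hE
  have hEe : edges F₁ F₂ = (E : Set ((Φ ⧸ Kinf) × Fin 3)) := by
    ext ⟨g, s⟩
    simp only [edges, Set.mem_ofPred_eq, hE, Finset.mem_coe, Finset.mem_union, Finset.mem_product,
      Finset.mem_singleton, Finset.mem_insert]
    fin_cases s <;> simp
  have hEc : E.card = F₁.card + 2 * F₂.card := by
    rw [hE, Finset.card_union_of_disjoint, Finset.card_product, Finset.card_product]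
    · simp [mul_comm]
    · rw [Finset.disjoint_left]
      rintro ⟨g, s⟩ h1 h2
      simp only [Finset.mem_product, Finset.mem_singleton, Finset.mem_insert] at h1 h2
      rw [h1.2] at h2
      simp at h2
  set C := Finsupp.supported K K (edges F₁ F₂) with hC
  have hsup : ∀ (ι : Type) (S : Finset ι), finrank K (Finsupp.supported K K (S : Set ι)) = S.card := by
    intro ι S
    rw [(Finsupp.supportedEquivFinsupp (M := K) (R := K) (S : Set ι)).finrank_eq,
      Module.finrank_finsupp_self]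
    simp
  have hfd : ∀ (ι : Type) (S : Finset ι), Module.Finite K (Finsupp.supported K K (S : Set ι)) := by
    intro ι S
    exact Module.Finite.equiv (Finsupp.supportedEquivFinsupp (M := K) (R := K) (S : Set ι)).symm
  have hCd : finrank K C = F₁.card + 2 * F₂.card := by
    rw [hC, hEe, hsup, hEc]
  have hCf : Module.Finite K C := by
    rw [hC, hEe]
    exact hfd _ _
  have hUf := hfd _ U
  -- the boundary map on `C`
  have hmaps : ∀ z ∈ C, bdry gen z ∈ Finsupp.supported K K (U : Set (Φ ⧸ Kinf)) := by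
    have h1 : C ≤ (Finsupp.supported K K (U : Set (Φ ⧸ Kinf))).comap (bdry gen) := by
      rw [hC, Finsupp.supported_eq_span_single, Submodule.span_le]
      rintro _ ⟨⟨g, s⟩, hgs, rfl⟩
      change bdry gen (Finsupp.single (g, s) 1) ∈ Finsupp.supported K K (U : Set (Φ ⧸ Kinf))
      unfold bdry
      rw [Finsupp.linearCombination_single, one_smul]
      refine Submodule.sub_mem _ ?_ ?_
      · apply Finsupp.single_mem_supported
        simp only [hU, Finset.coe_union, Finset.coe_image, Set.mem_union, Set.mem_image,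
          Finset.mem_coe]
        rcases hgs with ⟨h0, h2⟩ | ⟨h0, h2⟩
        · have h0' : s = 0 := h0
          rw [h0']
          exact Or.inl (Or.inl (Or.inl (Or.inr ⟨g, h2, rfl⟩)))
        · have h0' : s ≠ 0 := h0
          have h3 : s = 1 ∨ s = 2 := by
            fin_cases s
            · exact absurd rfl h0'
            · exact Or.inl rfl
            · exact Or.inr rfl
          rcases h3 with rfl | rfl
          · exact Or.inl (Or.inr ⟨g, h2, rfl⟩)
          · exact Or.inr ⟨g, h2, rfl⟩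
      · apply Finsupp.single_mem_supported
        simp only [hU, Finset.coe_union, Finset.coe_image, Set.mem_union, Set.mem_image,
          Finset.mem_coe]
        rcases hgs with ⟨h0, h2⟩ | ⟨h0, h2⟩
        · exact Or.inl (Or.inl (Or.inl (Or.inl h2)))
        · exact Or.inl (Or.inl (Or.inr h2))
    exact fun z hz => h1 hz
  set f : C →ₗ[K] Finsupp.supported K K (U : Set (Φ ⧸ Kinf)) := (bdry gen).restrict hmaps with hf
  have hrn := LinearMap.finrank_range_add_finrank_ker f
  have hr : finrank K (LinearMap.range f) ≤ U.card := by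
    rw [← hsup _ U]
    exact Submodule.finrank_le _
  have hk : finrank K (LinearMap.ker f) ≤ finrank K (C ⊓ LinearMap.ker (bdry gen) :
      Submodule K ((Φ ⧸ Kinf) × Fin 3 →₀ K)) := by
    have hmem : ∀ z : LinearMap.ker f, ((z : C) : (Φ ⧸ Kinf) × Fin 3 →₀ K) ∈
        (C ⊓ LinearMap.ker (bdry gen) : Submodule K ((Φ ⧸ Kinf) × Fin 3 →₀ K)) := by
      intro z
      refine ⟨z.1.2, ?_⟩
      have h1 : f z.1 = 0 := z.2
      exact congrArg Subtype.val h1
    have hfin2 : Module.Finite K (C ⊓ LinearMap.ker (bdry gen) :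
        Submodule K ((Φ ⧸ Kinf) × Fin 3 →₀ K)) :=
      Submodule.finiteDimensional_of_le (inf_le_left : C ⊓ LinearMap.ker (bdry gen) ≤ C)
    let ι : LinearMap.ker f →ₗ[K] (C ⊓ LinearMap.ker (bdry gen) :
        Submodule K ((Φ ⧸ Kinf) × Fin 3 →₀ K)) :=
      LinearMap.codRestrict _ (C.subtype ∘ₗ (LinearMap.ker f).subtype) hmem
    refine LinearMap.finrank_le_finrank_of_injective (f := ι) ?_
    intro a b hab
    apply Subtype.ext
    apply Subtype.ext
    have h1 : (ι a).1 = (ι b).1 := by rw [hab]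
    exact h1
  have hcyc := two_mul_finrank_cycles F₁ F₂
  rw [← hC] at hcyc
  rw [hCd] at hrn
  omega

/-- inversion `g ↦ g⁻¹` of all sets -/
theorem ghset_five [DecidableEq (Φ ⧸ Kinf)] :
    TARO.GHset (fun _ : Fin 1 => (gen 0)⁻¹) (fun j : Fin 2 => (gen j.succ)⁻¹) := by
  intro F₁ F₂
  have h := hallR (F₁.image fun g => g⁻¹) (F₂.image fun g => g⁻¹)
  rw [Finset.card_image_of_injective _ inv_injective,
    Finset.card_image_of_injective _ inv_injective] at h
  refine le_trans h ?_
  rw [← Finset.card_image_of_injective (f := fun g : Φ ⧸ Kinf => g⁻¹)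
    ((F₁ ∪ F₂) ∪ (Finset.univ.biUnion fun i : Fin 1 => F₁.image fun g => (gen 0)⁻¹ * g) ∪
        (Finset.univ.biUnion fun j : Fin 2 => F₂.image fun g => (gen j.succ)⁻¹ * g)) inv_injective]
  apply Finset.card_le_card
  intro g hg
  simp only [Finset.mem_union, Finset.mem_image, Finset.mem_biUnion, Finset.mem_univ, true_and]
    at hg ⊢
  refine ⟨g⁻¹, ?_, inv_inv g⟩
  rcases hg with (((⟨a, ha, rfl⟩ | ⟨_, ⟨a, ha, rfl⟩, rfl⟩) | ⟨a, ha, rfl⟩) |
    ⟨_, ⟨a, ha, rfl⟩, rfl⟩) | ⟨_, ⟨a, ha, rfl⟩, rfl⟩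
  · exact Or.inl (Or.inl (Or.inl (by rwa [inv_inv])))
  · exact Or.inl (Or.inr ⟨0, a, ha, by rw [mul_inv_rev, inv_inv]⟩)
  · exact Or.inl (Or.inl (Or.inr (by rwa [inv_inv])))
  · exact Or.inr ⟨0, a, ha, by rw [mul_inv_rev, inv_inv]; rfl⟩
  · exact Or.inr ⟨1, a, ha, by rw [mul_inv_rev, inv_inv]; rfl⟩

end TARF
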