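import Pool.Agent.TARF.Defs

/-! KINF: the intersection of the good subgroups. -/

open Module

namespace TARF

theorem good_top : Good ⊤ where
  normal := inferInstance
  fin := by
    have : Subsingleton (Φ ⧸ (⊤ : Subgroup Φ)) := QuotientGroup.subsingleton_quotient_top
    infer_instance
  pow _ := ⟨0, Subgroup.mem_top _⟩
  rel _ := Subgroup.mem_top _

theorem Good.inf {N N' : Subgroup Φ} (h : Good N) (h' : Good N') : Good (N ⊓ N') where
  normal := by
    have := h.normal
    have := h'.normal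
    infer_instance
  fin := by
    have := h.fin
    have := h'.fin
    have : N.FiniteIndex := Subgroup.finiteIndex_of_finite_quotient
    have : N'.FiniteIndex := Subgroup.finiteIndex_of_finite_quotient
    have : (N ⊓ N').FiniteIndex := inferInstance
    exact Subgroup.finite_quotient_of_finiteIndex
  pow v := by
    obtain ⟨n, hn⟩ := h.pow v
    obtain ⟨m, hm⟩ := h'.pow v
    refine ⟨n + m, Subgroup.mem_inf.2 ⟨?_, ?_⟩⟩
    · rw [pow_add, pow_mul]
      exact N.pow_mem hn _
    · rw [pow_add, mul_comm, pow_mul]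
      exact N'.pow_mem hm _
  rel i := Subgroup.mem_inf.2 ⟨h.rel i, h'.rel i⟩

theorem Kinf_le {N : Subgroup Φ} (h : Good N) : Kinf ≤ N :=
  iInf_le (fun N : {N : Subgroup Φ // Good N} => N.1) ⟨N, h⟩

private theorem mem_Kinf {v : Φ} : v ∈ Kinf ↔ ∀ N : Subgroup Φ, Good N → v ∈ N := by
  unfold Kinf
  rw [Subgroup.mem_iInf]
  exact ⟨fun h N hN => h ⟨N, hN⟩, fun h N => h N.1 N.2⟩

instance Kinf_normal : Kinf.Normal where
  conj_mem v hv g := mem_Kinf.2 fun N hN => hN.normal.conj_mem v (mem_Kinf.1 hv N hN) g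

theorem rel_mem_Kinf (i : ℕ) : rel i ∈ Kinf := mem_Kinf.2 fun _ hN => hN.rel i

private theorem en_mem (i : ℕ) : en i ∈ pr.ker := ((exists_surjective_nat pr.ker).choose i).2

/-- reduction of `pr` modulo `2 ^ n` -/
private noncomputable def fr (n : ℕ) : Φ →* Multiplicative (ZMod (2 ^ n)) :=
  (AddMonoidHom.toMultiplicative (Int.castAddHom (ZMod (2 ^ n)))).comp pr

private theorem good_fr (n : ℕ) : Good (fr n).ker where
  normal := inferInstance
  fin := by
    have : NeZero (2 ^ n) := ⟨by positivity⟩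
    have : Finite (Multiplicative (ZMod (2 ^ n))) := inferInstance
    exact Finite.of_equiv _ (QuotientGroup.quotientKerEquivRange (fr n)).symm.toEquiv
  pow v := by
    refine ⟨n, ?_⟩
    rw [MonoidHom.mem_ker, map_pow]
    apply Multiplicative.toAdd.injective
    rw [toAdd_pow, toAdd_one, nsmul_eq_mul, Nat.cast_pow, Nat.cast_ofNat]
    have : ((2 : ZMod (2 ^ n)) ^ n) = 0 := by
      have := ZMod.natCast_self (2 ^ n)
      push_cast at this
      exact this
    rw [this, zero_mul]
  rel i := by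
    rw [MonoidHom.mem_ker]
    have h : pr (rel i) = 1 := by
      unfold rel
      rw [map_pow, (MonoidHom.mem_ker).1 (en_mem i), one_pow]
    change (AddMonoidHom.toMultiplicative (Int.castAddHom (ZMod (2 ^ n)))) (pr (rel i)) = 1
    rw [h, map_one]

/-- the kernels of the maps `Φ → ℤ / 2 ^ n` are good, because the relators are in the kernel of
`pr` -/
theorem Kinf_le_ker : Kinf ≤ pr.ker := by
  intro v hv
  rw [MonoidHom.mem_ker]
  apply Multiplicative.toAdd.injective
  rw [toAdd_one]
  set z : ℤ := Multiplicative.toAdd (pr v) with hz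
  have hdvd : ∀ n : ℕ, ((2 ^ n : ℕ) : ℤ) ∣ z := by
    intro n
    have h1 := mem_Kinf.1 hv _ (good_fr n)
    rw [MonoidHom.mem_ker] at h1
    have h2 : ((z : ℤ) : ZMod (2 ^ n)) = 0 := congrArg Multiplicative.toAdd h1
    exact (ZMod.intCast_zmod_eq_zero_iff_dvd z (2 ^ n)).1 h2
  have h3 := hdvd z.natAbs
  by_contra hne
  have h4 : 2 ^ z.natAbs ∣ z.natAbs := by
    have := Int.natAbs_dvd_natAbs.2 h3
    simpa using this
  have h5 := Nat.le_of_dvd (Int.natAbs_pos.2 hne) h4
  have h6 : z.natAbs < 2 ^ z.natAbs := Nat.lt_two_pow_self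
  omega

/-- every element of the kernel of `pr` has a power in `Kinf` -/
theorem exists_pow_mem_Kinf {v : Φ} (hv : v ∈ pr.ker) : ∃ n : ℕ, 0 < n ∧ v ^ n ∈ Kinf := by
  obtain ⟨i, hi⟩ := (exists_surjective_nat pr.ker).choose_spec ⟨v, hv⟩
  have he : en i = v := congrArg Subtype.val hi
  refine ⟨2 ^ (i + 2), by positivity, ?_⟩
  rw [← he]
  exact rel_mem_Kinf i

/-- finitely many elements outside `Kinf` are outside some good subgroup -/
theorem exists_good_sep (S : Finset Φ) (hS : ∀ v ∈ S, v ∉ Kinf) :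
    ∃ N : Subgroup Φ, Good N ∧ ∀ v ∈ S, v ∉ N := by
  classical
  induction S using Finset.induction_on with
  | empty => exact ⟨⊤, good_top, by simp⟩
  | insert a S ha ih =>
    obtain ⟨N, hN, hv⟩ := ih fun v hv => hS v (Finset.mem_insert_of_mem hv)
    have h1 := hS a (Finset.mem_insert_self a S)
    rw [mem_Kinf] at h1
    push Not at h1
    obtain ⟨N', hN', ha'⟩ := h1
    refine ⟨N ⊓ N', hN.inf hN', fun v hvs => ?_⟩
    rcases Finset.mem_insert.1 hvs with rfl | h
    · exact fun h => ha' (Subgroup.mem_inf.1 h).2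
    · exact fun h' => hv v h (Subgroup.mem_inf.1 h').1

end TARF
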