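import Pool.Agent.TARF.RELD

/-! SUMD: the dimension of the span of the translates of all relators. -/

open Module

namespace TARF

variable {N : Subgroup Φ} [N.Normal] {M : Type} [AddCommGroup M] [Module K M] [Finite M]
  {ρ : Representation K (Φ ⧸ N) M} {P : Φ → M}

private theorem SUMD_sup {M : Type} [AddCommGroup M] [Module K M] [Module.Finite K M]
    (V : ℕ → Submodule K M) (n : ℕ) :
    finrank K ((Finset.range n).sup V : Submodule K M) ≤ ∑ i ∈ Finset.range n, finrank K (V i) := by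
  induction n with
  | zero =>
    rw [Finset.range_zero, Finset.sup_empty, Finset.sum_empty, finrank_bot]
  | succ n ih =>
    rw [Finset.range_add_one, Finset.sup_insert, Finset.sum_insert Finset.notMem_range_self]
    exact (Submodule.finrank_add_le_finrank_add_finrank _ _).trans (Nat.add_le_add_left ih _)

private theorem SUMD_sum (q : ℕ) (f : ℕ → ℕ) (hf : ∀ i, 2 ^ (i + 2) * f i ≤ q) (n : ℕ) :
    2 ^ (n + 1) * ∑ i ∈ Finset.range n, f i + q ≤ q * 2 ^ n := by
  induction n with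
  | zero => simp
  | succ n ih =>
    rw [Finset.sum_range_succ]
    have h1 := hf n
    have e1 : 2 ^ (n + 1 + 1) * (∑ i ∈ Finset.range n, f i + f n) + q =
        2 * (2 ^ (n + 1) * ∑ i ∈ Finset.range n, f i) + 2 ^ (n + 2) * f n + q := by ring
    have e2 : q * 2 ^ (n + 1) = 2 * (q * 2 ^ n) := by ring
    rw [e1, e2]
    omega

/-- `Bd` is the supremum of the spaces of `relator_dim` for `v = en i`, `n = i + 2`; by finite
dimension a finite part `i < n` suffices, and `∑ i < n, |Q| / 2 ^ (i + 2) ≤ |Q| / 2` -/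
theorem two_mul_finrank_Bd (hN : Good N) (h : Cocycle ρ (QuotientGroup.mk' N) P) :
    2 * finrank K (Bd ρ P) ≤ Nat.card (Φ ⧸ N) := by
  classical
  have hfin : Finite (Φ ⧸ N) := hN.fin
  have hMf : Module.Finite K M := Module.Finite.of_finite
  obtain ⟨V, hV⟩ : ∃ V : ℕ → Submodule K M, V = fun i =>
    Submodule.span K {z | ∃ q : Φ ⧸ N, z = ρ q (P (en i ^ 2 ^ (i + 2)))} := ⟨_, rfl⟩
  have hVd : ∀ i, 2 ^ (i + 2) * finrank K (V i) ≤ Nat.card (Φ ⧸ N) := fun i => by
    rw [hV]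
    refine relator_dim h (en i) (i + 2) ?_
    rw [← map_pow]
    exact (QuotientGroup.eq_one_iff _).2 (hN.rel i)
  obtain ⟨n, hn⟩ : ∃ n, Bd ρ P ≤ (Finset.range n).sup V := by
    obtain ⟨S, hS⟩ : ∃ S, S = {z | ∃ (q : Φ ⧸ N) (i : ℕ), z = ρ q (P (rel i))} := ⟨_, rfl⟩
    have hSf : S.Finite := Set.toFinite S
    have hch : ∀ z : M, ∃ i : ℕ, z ∈ S → ∃ q : Φ ⧸ N, z = ρ q (P (rel i)) := by
      intro z
      by_cases hz : z ∈ S
      · have hz' := hz
        rw [hS] at hz'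
        obtain ⟨q, i, h1⟩ := hz'
        exact ⟨i, fun _ => ⟨q, h1⟩⟩
      · exact ⟨0, fun h1 => absurd h1 hz⟩
    choose j hj using hch
    refine ⟨hSf.toFinset.sup j + 1, ?_⟩
    unfold Bd
    rw [← hS, Submodule.span_le]
    intro z hz
    obtain ⟨q, hq⟩ := hj z hz
    have h1 : j z ∈ Finset.range (hSf.toFinset.sup j + 1) := by
      rw [Finset.mem_range]
      have := Finset.le_sup (f := j) (hSf.mem_toFinset.2 hz)
      omega
    have h2 : V (j z) ≤ (Finset.range (hSf.toFinset.sup j + 1)).sup V := Finset.le_sup h1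
    refine h2 ?_
    rw [hV]
    exact Submodule.subset_span ⟨q, hq⟩
  have h1 := (Submodule.finrank_mono hn).trans (SUMD_sup V n)
  have h2 := SUMD_sum (Nat.card (Φ ⧸ N)) (fun i => finrank K (V i)) hVd n
  have h3 : 2 ^ (n + 1) * finrank K (Bd ρ P) ≤ Nat.card (Φ ⧸ N) * 2 ^ n :=
    le_trans (Nat.mul_le_mul_left _ h1) (le_trans (Nat.le_add_right _ _) h2)
  have h4 : 2 ^ n * (2 * finrank K (Bd ρ P)) ≤ 2 ^ n * Nat.card (Φ ⧸ N) := by
    calc 2 ^ n * (2 * finrank K (Bd ρ P)) = 2 ^ (n + 1) * finrank K (Bd ρ P) := by ring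
      _ ≤ Nat.card (Φ ⧸ N) * 2 ^ n := h3
      _ = 2 ^ n * Nat.card (Φ ⧸ N) := mul_comm _ _
  exact Nat.le_of_mul_le_mul_left h4 (by positivity)

/-- `Bd` is invariant -/
theorem Bd_inv (ρ : Representation K (Φ ⧸ N) M) (P : Φ → M) (q : Φ ⧸ N) {z : M}
    (hz : z ∈ Bd ρ P) : ρ q z ∈ Bd ρ P := by
  have h1 : Bd ρ P ≤ (Bd ρ P).comap (ρ q) := by
    conv_lhs => unfold Bd
    rw [Submodule.span_le]
    rintro w ⟨q', i, rfl⟩
    change ρ q (ρ q' (P (rel i))) ∈ Bd ρ P
    have h2 : ρ q (ρ q' (P (rel i))) = ρ (q * q') (P (rel i)) := by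
      rw [map_mul]; rfl
    rw [h2]
    exact Submodule.subset_span ⟨q * q', i, rfl⟩
  exact h1 hz

end TARF
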