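import Pool.Agent.TARF.KER
import Pool.Agent.TARF.SUMD
import Pool.Agent.TARF.KINF

/-! KB: the cocycle at the elements of `Kinf`. -/

open Module

namespace TARF

variable {N : Subgroup Φ} [N.Normal] {M : Type} [AddCommGroup M] [Module K M] [Finite M]
  {ρ : Representation K (Φ ⧸ N) M} {P : Φ → M}

/-- The classes of `P` in `M ⧸ Bd ρ P` form a cocycle for the induced representation; its kernel
(`exists_ker`) is a good subgroup, so it contains `Kinf`. -/
theorem mem_Bd_of_mem_Kinf (hN : Good N) (h : Cocycle ρ (QuotientGroup.mk' N) P) {v : Φ}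
    (hv : v ∈ Kinf) : P v ∈ Bd ρ P := by
  classical
  have hfin : Finite (Φ ⧸ N) := hN.fin
  have hstab : ∀ q : Φ ⧸ N, Bd ρ P ≤ (Bd ρ P).comap (ρ q) := fun q z hz => Bd_inv ρ P q hz
  let ρ' : Representation K (Φ ⧸ N) (M ⧸ Bd ρ P) :=
    { toFun := fun q => (Bd ρ P).mapQ (Bd ρ P) (ρ q) (hstab q)
      map_one' := by
        refine Submodule.linearMap_qext _ (LinearMap.ext fun z => ?_)
        change (Bd ρ P).mkQ (ρ 1 z) = (Bd ρ P).mkQ z
        rw [map_one]
        rfl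
      map_mul' := fun a b => by
        refine Submodule.linearMap_qext _ (LinearMap.ext fun z => ?_)
        change (Bd ρ P).mkQ (ρ (a * b) z) = (Bd ρ P).mkQ (ρ a (ρ b z))
        rw [map_mul]
        rfl }
  have h' : Cocycle ρ' (QuotientGroup.mk' N) (fun v => (Bd ρ P).mkQ (P v)) := by
    refine ⟨fun v w => ?_⟩
    rw [h.mul, map_add]
    rfl
  have hfinM : Finite (M ⧸ Bd ρ P) := Finite.of_surjective _ (Bd ρ P).mkQ_surjective
  obtain ⟨N', hn, hf, hp, hmem⟩ := exists_ker (Q := Φ ⧸ N) (fun q => by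
    obtain ⟨w, rfl⟩ := QuotientGroup.mk_surjective q
    obtain ⟨n, hn⟩ := hN.pow w
    refine ⟨n, ?_⟩
    rw [← QuotientGroup.mk_pow]
    exact (QuotientGroup.eq_one_iff _).2 hn) h'
  have hgood : Good N' := by
    refine ⟨hn, hf, hp, fun i => (hmem _).2 ⟨?_, ?_⟩⟩
    · exact (QuotientGroup.eq_one_iff _).2 (hN.rel i)
    · refine (Submodule.Quotient.mk_eq_zero _).2 (Submodule.subset_span ⟨1, i, ?_⟩)
      rw [map_one]
      rfl
  have h1 := ((hmem v).1 (Kinf_le hgood hv)).2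
  exact (Submodule.Quotient.mk_eq_zero _).1 h1

/-- the potential on `Φ ⧸ Kinf` -/
theorem exists_potential (hN : Good N) (h : Cocycle ρ (QuotientGroup.mk' N) P) :
    ∃ m : (Φ ⧸ Kinf) → (M ⧸ Bd ρ P), ∀ v : Φ,
      m (QuotientGroup.mk v) = (Bd ρ P).mkQ (P v) := by
  refine ⟨fun q => (Bd ρ P).mkQ (P (Quotient.out q)), fun v => ?_⟩
  obtain ⟨k, hk⟩ := QuotientGroup.mk_out_eq_mul Kinf v
  change (Bd ρ P).mkQ (P (Quotient.out (QuotientGroup.mk v : Φ ⧸ Kinf))) = _
  rw [hk, h.mul, map_add]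
  have h1 : (Bd ρ P).mkQ (ρ (QuotientGroup.mk' N v) (P k)) = 0 :=
    (Submodule.Quotient.mk_eq_zero _).2 (Bd_inv ρ P _ (mem_Bd_of_mem_Kinf hN h k.2))
  rw [h1, add_zero]

end TARF
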