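import Pool.Agent.TARF.COC

/-! KER: the kernel of a cocycle. -/

open Module

namespace TARF

variable {Q M : Type} [Group Q] [AddCommGroup M] [Module K M] {ρ : Representation K Q M}
  {φ : Φ →* Q} {P : Φ → M}

private def KER_N (h : Cocycle ρ φ P) : Subgroup Φ where
  carrier := {v | φ v = 1 ∧ P v = 0}
  mul_mem' := by
    rintro v w ⟨h1, h2⟩ ⟨h3, h4⟩
    refine ⟨by rw [map_mul, h1, h3, one_mul], ?_⟩
    show P (v * w) = 0
    rw [h.mul, h2, h4, map_zero, add_zero]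
  one_mem' := ⟨map_one φ, h.one⟩
  inv_mem' := by
    rintro v ⟨h1, h2⟩
    refine ⟨by rw [map_inv, h1, inv_one], ?_⟩
    show P v⁻¹ = 0
    have e := h.mul v v⁻¹
    rw [mul_inv_cancel, h.one, h2, h1, map_one, zero_add] at e
    exact e.symm

/-- `N = {v | φ v = 1 ∧ P v = 0}`; the map `v ↦ (φ v, P v)` induces an injection of `Φ ⧸ N` to
`Q × M`; `φ (v ^ 2 ^ n) = 1` gives `P (v ^ 2 ^ (n + 1)) = 2 • P (v ^ 2 ^ n) = 0` -/
theorem exists_ker [Finite Q] [Finite M] (hQ : ∀ q : Q, ∃ n : ℕ, q ^ 2 ^ n = 1)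
    (h : Cocycle ρ φ P) :
    ∃ N : Subgroup Φ, N.Normal ∧ Finite (Φ ⧸ N) ∧ (∀ v : Φ, ∃ n : ℕ, v ^ 2 ^ n ∈ N) ∧
      ∀ v, v ∈ N ↔ φ v = 1 ∧ P v = 0 := by
  have hmem : ∀ v, v ∈ KER_N h ↔ φ v = 1 ∧ P v = 0 := fun v => Iff.rfl
  refine ⟨KER_N h, ⟨fun v hv g => ?_⟩, ?_, fun v => ?_, hmem⟩
  · rw [hmem] at hv ⊢
    refine ⟨by rw [map_mul, map_mul, hv.1, mul_one, ← map_mul, mul_inv_cancel, map_one], ?_⟩
    have e := h.mul g g⁻¹
    rw [mul_inv_cancel, h.one] at e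
    rw [h.mul, h.mul, hv.2, map_zero, add_zero, map_mul, hv.1, mul_one]
    exact e.symm
  · let f : Φ → Q × M := fun v => (φ v, P v)
    let g : Set.range f → Φ ⧸ KER_N h := fun x => QuotientGroup.mk x.2.choose
    have hg : Function.Surjective g := by
      intro x
      obtain ⟨v, rfl⟩ := QuotientGroup.mk_surjective x
      refine ⟨⟨f v, v, rfl⟩, ?_⟩
      have hs : f (Exists.choose (⟨v, rfl⟩ : ∃ y, f y = f v)) = f v :=
        Exists.choose_spec (⟨v, rfl⟩ : ∃ y, f y = f v)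
      show QuotientGroup.mk (Exists.choose (⟨v, rfl⟩ : ∃ y, f y = f v)) = QuotientGroup.mk v
      set v' := Exists.choose (⟨v, rfl⟩ : ∃ y, f y = f v)
      have e1 : φ v' = φ v := congrArg Prod.fst hs
      have e2 : P v' = P v := congrArg Prod.snd hs
      rw [QuotientGroup.eq, hmem]
      refine ⟨by rw [map_mul, map_inv, e1, inv_mul_cancel], ?_⟩
      have e := h.mul v' (v'⁻¹ * v)
      rw [mul_inv_cancel_left, e2] at e
      have e3 : ρ (φ v') (P (v'⁻¹ * v)) = 0 := left_eq_add.1 e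
      have e4 := congrArg (ρ (φ v')⁻¹) e3
      rw [map_zero, ← Module.End.mul_apply, ← map_mul, inv_mul_cancel, map_one] at e4
      exact e4
    exact Finite.of_surjective g hg
  · obtain ⟨n, hn⟩ := hQ (φ v)
    refine ⟨n + 1, ?_⟩
    have e1 : φ (v ^ 2 ^ n) = 1 := by rw [map_pow, hn]
    rw [hmem, pow_succ, pow_mul]
    refine ⟨by rw [map_pow, e1, one_pow], ?_⟩
    rw [h.pow_of_eq_one e1]
    have : ((2 : ℕ) : K) = 0 := rfl
    rw [this, zero_smul]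

end TARF
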