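import Pool.Agent.TARF.KB

/-! PUSH: cycles are mapped to `Bd`. -/

open Module

namespace TARF

/-- the generators of `Φ ⧸ Kinf` -/
def gen (s : Fin 3) : Φ ⧸ Kinf := QuotientGroup.mk (FreeGroup.of s)

/-- the projection to `Φ ⧸ N` -/
def proj {N : Subgroup Φ} [N.Normal] (hN : Good N) : (Φ ⧸ Kinf) →* (Φ ⧸ N) :=
  QuotientGroup.map Kinf N (MonoidHom.id Φ) (Kinf_le hN)

/-- For the cocycle `P` with values in `Ch (Φ ⧸ N)`, `P (of s) = ed 1 s`: with the potential `m`,
the class of `ed (proj g) s` modulo `Bd` is `m (g * gen s) - m g` (write `g` as the class of `v`: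
`P (v * of s) = P v + tr (v) (ed 1 s)`).  So the class of `push z` is the value of the linear
extension of `m` at `bdry z`. -/
theorem push_mem_Bd {N : Subgroup Φ} [N.Normal] [DecidableEq (Φ ⧸ N)] (hN : Good N) {P : Φ → Ch (Φ ⧸ N)}
    (h : Cocycle (tr (Φ ⧸ N)) (QuotientGroup.mk' N) P)
    (hP : ∀ s, P (FreeGroup.of s) = ed 1 s) {z : (Φ ⧸ Kinf) × Fin 3 →₀ K}
    (hz : bdry gen z = 0) : push (proj hN) z ∈ Bd (tr (Φ ⧸ N)) P := by
  classical
  have hfin : Finite (Φ ⧸ N) := hN.fin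
  obtain ⟨m, hm⟩ := exists_potential (M := Ch (Φ ⧸ N)) hN h
  have hed : ∀ (q : Φ ⧸ N) (s : Fin 3), tr (Φ ⧸ N) q (ed 1 s) = ed q s := by
    intro q s
    funext e
    change (Pi.single ((1 : Φ ⧸ N), s) (1 : K) : Ch (Φ ⧸ N)) (q⁻¹ * e.1, e.2) =
      (Pi.single (q, s) (1 : K) : Ch (Φ ⧸ N)) e
    rw [Pi.single_apply, Pi.single_apply]
    by_cases he : e = (q, s)
    · rw [if_pos he, if_pos]
      rw [he, inv_mul_cancel]
    · rw [if_neg he, if_neg]
      intro hc
      apply he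
      rw [Prod.mk.injEq] at hc
      refine Prod.ext ?_ hc.2
      exact (inv_mul_eq_one.1 hc.1).symm
  have key : (Bd (tr (Φ ⧸ N)) P).mkQ ∘ₗ push (proj hN) =
      (Finsupp.linearCombination K m) ∘ₗ bdry gen := by
    refine Finsupp.lhom_ext' fun e => LinearMap.ext_ring ?_
    obtain ⟨g, s⟩ := e
    obtain ⟨v, rfl⟩ := QuotientGroup.mk_surjective g
    have h1 : push (proj hN) (Finsupp.single ((QuotientGroup.mk v : Φ ⧸ Kinf), s) 1) =
        ed (QuotientGroup.mk' N v) s := by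
      unfold push
      rw [Finsupp.linearCombination_single, one_smul]
      rfl
    have h2 : bdry gen (Finsupp.single ((QuotientGroup.mk v : Φ ⧸ Kinf), s) 1) =
        (Finsupp.single (QuotientGroup.mk (v * FreeGroup.of s) : Φ ⧸ Kinf) (1 : K) -
          Finsupp.single (QuotientGroup.mk v : Φ ⧸ Kinf) (1 : K) : (Φ ⧸ Kinf) →₀ K) := by
      unfold bdry
      rw [Finsupp.linearCombination_single, one_smul]
      rfl
    change (Bd (tr (Φ ⧸ N)) P).mkQ (push (proj hN) (Finsupp.single ((QuotientGroup.mk v : Φ ⧸ Kinf), s) 1)) =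
      Finsupp.linearCombination K m (bdry gen (Finsupp.single ((QuotientGroup.mk v : Φ ⧸ Kinf), s) 1))
    rw [h1, h2, map_sub, Finsupp.linearCombination_single, Finsupp.linearCombination_single, one_smul,
      one_smul, hm, hm, ← map_sub, h.mul, add_sub_cancel_left, hP, hed]
  have h1 := LinearMap.congr_fun key z
  rw [LinearMap.comp_apply, LinearMap.comp_apply, hz, map_zero] at h1
  exact (Submodule.Quotient.mk_eq_zero _).1 h1

/-- a finite set is mapped injectively to `Φ ⧸ N` for some good `N` -/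
theorem exists_sep (W : Finset (Φ ⧸ Kinf)) : ∃ (N : Subgroup Φ) (_ : N.Normal) (hN : Good N),
    Set.InjOn (proj hN) (W : Set (Φ ⧸ Kinf)) := by
  classical
  obtain ⟨S, hS⟩ : ∃ S : Finset Φ, S = ((W ×ˢ W).image fun p => p.1.out⁻¹ * p.2.out).filter (· ∉ Kinf) :=
    ⟨_, rfl⟩
  obtain ⟨N, hN, hsep⟩ := exists_good_sep S (fun v hv => by
    rw [hS, Finset.mem_filter] at hv
    exact hv.2)
  have hn := hN.normal
  refine ⟨N, hn, hN, fun a ha b hb hab => ?_⟩
  by_contra hne
  have h1 : a.out⁻¹ * b.out ∉ Kinf := by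
    intro hc
    apply hne
    have h2 := QuotientGroup.eq.2 hc
    rwa [QuotientGroup.out_eq', QuotientGroup.out_eq'] at h2
  have h2 : a.out⁻¹ * b.out ∈ S := by
    rw [hS, Finset.mem_filter]
    exact ⟨Finset.mem_image.2 ⟨(a, b), Finset.mem_product.2 ⟨ha, hb⟩, rfl⟩, h1⟩
  apply hsep _ h2
  have h3 : proj hN (QuotientGroup.mk a.out) = proj hN (QuotientGroup.mk b.out) := by
    rw [QuotientGroup.out_eq', QuotientGroup.out_eq']
    exact hab
  exact QuotientGroup.eq.1 h3

end TARF
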