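import Pool.Agent.TARF.COC

/-! RELD: the space spanned by the translates of one relator. -/

open Module

namespace TARF

variable {Q M : Type} [Group Q] [AddCommGroup M] [Module K M] {ρ : Representation K Q M}
  {φ : Φ →* Q} {P : Φ → M}

/-- Let `2 ^ m` be the order of `φ v`.  If `m < n` then `P (v ^ 2 ^ n)` is an even multiple of
`P (v ^ 2 ^ m)`, so it is `0`.  If `m = n` then `z = P (v ^ 2 ^ n)` satisfies
`ρ (φ v) z = z` (compare `v * v ^ 2 ^ n = v ^ 2 ^ n * v`), so `ρ q z` depends only on the coset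
`q * ⟨φ v⟩`, and there are `|Q| / 2 ^ n` cosets. -/
theorem relator_dim [Finite Q] (h : Cocycle ρ φ P) (v : Φ) (n : ℕ) (hv : φ v ^ 2 ^ n = 1) :
    2 ^ n * finrank K (Submodule.span K {z | ∃ q : Q, z = ρ q (P (v ^ 2 ^ n))}) ≤
      Nat.card Q := by
  classical
  obtain ⟨m, hm, hord⟩ := (Nat.dvd_prime_pow Nat.prime_two).1 (orderOf_dvd_of_pow_eq_one hv)
  obtain ⟨z, hz⟩ : ∃ z, z = P (v ^ 2 ^ n) := ⟨_, rfl⟩
  rw [← hz]
  rcases Nat.lt_or_ge m n with hmn | hmn
  · have hz0 : z = 0 := by
      have h1 : φ (v ^ 2 ^ m) = 1 := by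
        rw [map_pow, ← hord, pow_orderOf_eq_one]
      have h2 : v ^ 2 ^ n = (v ^ 2 ^ m) ^ 2 ^ (n - m) := by
        rw [← pow_mul, ← pow_add]
        congr 2
        omega
      rw [hz, h2, h.pow_of_eq_one h1]
      have h3 : ((2 ^ (n - m) : ℕ) : K) = 0 := by
        obtain ⟨k, hk⟩ : ∃ k, n - m = k + 1 := ⟨n - m - 1, by omega⟩
        rw [hk, pow_succ, Nat.cast_mul]
        have : ((2 : ℕ) : K) = 0 := by decide
        rw [this, mul_zero]
      rw [h3, zero_smul]
    have h1 : Submodule.span K {w | ∃ q : Q, w = ρ q z} = ⊥ := by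
      rw [Submodule.span_eq_bot]
      rintro w ⟨q, rfl⟩
      rw [hz0, map_zero]
    rw [h1, finrank_bot, mul_zero]
    exact Nat.zero_le _
  · have hmn' : m = n := by
      have := hm
      omega
    rw [hmn'] at hord
    have hfix : ρ (φ v) z = z := by
      have h1 : P (v * v ^ 2 ^ n) = P (v ^ 2 ^ n * v) := by
        rw [← pow_succ, ← pow_succ']
      rw [h.mul, h.mul, map_pow, hv, map_one, ← hz] at h1
      have h2 : (1 : M →ₗ[K] M) (P v) = P v := rfl
      rw [h2, add_comm] at h1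
      exact add_right_cancel h1
    have hfix2 : ∀ g ∈ Subgroup.zpowers (φ v), ρ g z = z := by
      intro g hg
      have h1 : ∀ k : ℕ, ρ (φ v ^ k) z = z := by
        intro k
        induction k with
        | zero => rw [pow_zero, map_one]; rfl
        | succ k ih =>
          rw [pow_succ, map_mul]
          change ρ (φ v ^ k) (ρ (φ v) z) = z
          rw [hfix, ih]
      obtain ⟨k, hk⟩ := (mem_powers_iff_mem_zpowers).2 hg
      rw [← hk]
      exact h1 k
    have hset : {w | ∃ q : Q, w = ρ q z} = Set.range (fun c : Q ⧸ Subgroup.zpowers (φ v) => ρ c.out z) := by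
      ext w
      constructor
      · rintro ⟨q, rfl⟩
        refine ⟨(q : Q ⧸ Subgroup.zpowers (φ v)), ?_⟩
        obtain ⟨g, hg⟩ := QuotientGroup.mk_out_eq_mul (Subgroup.zpowers (φ v)) q
        change ρ (Quotient.out (q : Q ⧸ Subgroup.zpowers (φ v))) z = ρ q z
        rw [hg, map_mul]
        change ρ q (ρ g z) = ρ q z
        rw [hfix2 g g.2]
      · rintro ⟨c, rfl⟩
        exact ⟨c.out, rfl⟩
    have hfin : Fintype (Q ⧸ Subgroup.zpowers (φ v)) := Fintype.ofFinite _
    have h1 : finrank K (Submodule.span K {w | ∃ q : Q, w = ρ q z}) ≤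
        Nat.card (Q ⧸ Subgroup.zpowers (φ v)) := by
      rw [hset, Nat.card_eq_fintype_card]
      exact finrank_range_le_card (R := K) _
    rw [Subgroup.card_eq_card_quotient_mul_card_subgroup (Subgroup.zpowers (φ v)), Nat.card_zpowers, hord,
      mul_comm]
    exact Nat.mul_le_mul_right _ h1

end TARF
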