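import Pool.Agent.TARF.PUSH

/-! XINF: the first generator has infinite order. -/

open Module

namespace TARF

/-- `pr` induces a homomorphism on `Φ ⧸ Kinf` -/
noncomputable def prb : (Φ ⧸ Kinf) →* Multiplicative ℤ := QuotientGroup.lift Kinf pr Kinf_le_ker

theorem prb_gen_zero : prb (gen 0) = Multiplicative.ofAdd 1 := by
  show pr (FreeGroup.of 0) = Multiplicative.ofAdd 1
  unfold pr
  rw [FreeGroup.lift_apply_of, if_pos rfl]

theorem XINF_bdry_apply [DecidableEq (Φ ⧸ Kinf)] (z : (Φ ⧸ Kinf) × Fin 3 →₀ K) (h : Φ ⧸ Kinf) :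
    bdry gen z h = ∑ e ∈ z.support, z e * ((if e.1 * gen e.2 = h then 1 else 0) -
      (if e.1 = h then 1 else 0)) := by
  unfold bdry
  rw [Finsupp.linearCombination_apply, Finsupp.sum, Finsupp.finsetSum_apply]
  apply Finset.sum_congr rfl
  intro e _
  rw [Finsupp.smul_apply, Finsupp.sub_apply, Finsupp.single_apply, Finsupp.single_apply,
    smul_eq_mul]

/-- Suppose `z ≠ 0`.  Take an edge `(g, 0)` in the support with `prb g` maximal.  The coefficient
of `bdry z` at `g * gen 0` is `z (g, 0) - z (g * gen 0, 0) = z (g, 0)`: contradiction. -/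
theorem eq_zero_of_bdry {z : (Φ ⧸ Kinf) × Fin 3 →₀ K} (hz : bdry gen z = 0)
    (hs : ∀ e ∈ z.support, e.2 = 0) : z = 0 := by
  classical
  by_contra hz0
  have hne : z.support.Nonempty := by
    rw [Finset.nonempty_iff_ne_empty]
    intro h
    exact hz0 (Finsupp.support_eq_empty.1 h)
  obtain ⟨e, he, hmax⟩ := z.support.exists_max_image (fun e => Multiplicative.toAdd (prb e.1)) hne
  have h1 : bdry gen z (e.1 * gen 0) = 0 := by
    rw [hz]
    rfl
  rw [XINF_bdry_apply, Finset.sum_eq_single_of_mem e he] at h1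
  · have h2 : e.2 = 0 := hs e he
    have h3 : e.1 ≠ e.1 * gen 0 := by
      intro h
      have h4 : gen 0 = 1 := by
        have h5 : e.1 * 1 = e.1 * gen 0 := by rw [mul_one]; exact h
        exact (mul_left_cancel h5).symm
      have h6 := prb_gen_zero
      rw [h4, map_one] at h6
      have h7 := congrArg Multiplicative.toAdd h6
      simp at h7
    rw [h2, if_pos rfl, if_neg h3, sub_zero, mul_one] at h1
    exact (Finsupp.mem_support_iff.1 he) h1
  · intro e' he' hne'
    have h2 : e.2 = 0 := hs e he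
    have h2' : e'.2 = 0 := hs e' he'
    have h3 : ¬ e'.1 * gen e'.2 = e.1 * gen 0 := by
      rw [h2']
      intro h
      have h4 : e'.1 = e.1 := mul_right_cancel h
      exact hne' (Prod.ext h4 (by rw [h2, h2']))
    have h5 : ¬ e'.1 = e.1 * gen 0 := by
      intro h
      have h6 := hmax e' he'
      rw [h, map_mul, prb_gen_zero, toAdd_mul, toAdd_ofAdd] at h6
      linarith
    rw [if_neg h3, if_neg h5, sub_zero, mul_zero]

/-- an element of the kernel of `prb` has finite order -/
theorem exists_pow_eq_one {g : Φ ⧸ Kinf} (hg : prb g = 1) : ∃ n : ℕ, 0 < n ∧ g ^ n = 1 := by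
  obtain ⟨v, rfl⟩ := QuotientGroup.mk_surjective g
  have hv : v ∈ pr.ker := by
    rw [MonoidHom.mem_ker]
    exact hg
  obtain ⟨n, hn, h⟩ := exists_pow_mem_Kinf hv
  refine ⟨n, hn, ?_⟩
  rw [← QuotientGroup.mk_pow]
  exact (QuotientGroup.eq_one_iff _).2 h

end TARF
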